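import Pool.Agent.Helper27.BE.Defs

/-!
BE-18: choice of a basis of the graded pieces of the spans of `T i`.
-/

set_option autoImplicit false

namespace Pool.Agent.Helper87.BE

open Finset Pool.Agent.Helper27.BE

/-- A basis of the image of the span of `T` modulo `M`, consisting of images of elements of `T`. -/
lemma piece {p : ℕ} [Fact p.Prime] {A : Type} [AddCommGroup A] [Module (ZMod p) A]
    [Module.Finite (ZMod p) A] (T : Set A) (M : Submodule (ZMod p) A) :
    ∃ (m : ℕ) (Y : Fin m → A), (∀ s, Y s ∈ T) ∧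
      T ⊆ (Submodule.span (ZMod p) (Set.range Y) ⊔ M : Submodule (ZMod p) A) ∧
      m = Module.finrank (ZMod p) ((Submodule.span (ZMod p) T) ⧸
          (M.comap (Submodule.span (ZMod p) T).subtype)) := by
  classical
  obtain ⟨b, hbT, hbspan, hbli⟩ := exists_linearIndependent (ZMod p) (M.mkQ '' T)
  have hbfin : Finite b := hbli.finite
  have : Fintype b := Fintype.ofFinite b
  let e := Fintype.equivFin b
  choose g hgT hgb using fun x : b => hbT x.2
  have hrange : (Submodule.span (ZMod p) (Set.range fun s => g (e.symm s))).map M.mkQ =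
      (Submodule.span (ZMod p) T).map M.mkQ := by
    rw [Submodule.map_span, Submodule.map_span, ← hbspan]
    congr 1
    ext y
    constructor
    · rintro ⟨_, ⟨s, rfl⟩, rfl⟩
      rw [hgb]
      exact (e.symm s).2
    · intro hy
      refine ⟨_, ⟨e ⟨y, hy⟩, rfl⟩, ?_⟩
      simp only [Equiv.symm_apply_apply]
      exact hgb ⟨y, hy⟩
  refine ⟨Fintype.card b, fun s => g (e.symm s), fun s => hgT _, ?_, ?_⟩
  · intro x hx
    have h1 : M.mkQ x ∈ (Submodule.span (ZMod p) (Set.range fun s => g (e.symm s))).map M.mkQ := by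
      rw [hrange]
      exact ⟨x, Submodule.subset_span hx, rfl⟩
    obtain ⟨y, hy, hyx⟩ := h1
    have h2 : x - y ∈ M := by
      rw [← Submodule.Quotient.mk_eq_zero, ← Submodule.mkQ_apply, map_sub, sub_eq_zero]
      exact hyx.symm
    have h3 : x = y + (x - y) := by abel
    rw [SetLike.mem_coe, h3]
    exact Submodule.add_mem_sup hy h2
  · have h1 : Module.finrank (ZMod p) (Submodule.span (ZMod p) b) = Fintype.card b := by
      have h := finrank_span_eq_card hbli
      rw [Subtype.range_coe_subtype, Set.ofPred_mem_eq] at h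
      exact h
    have h2 : Submodule.span (ZMod p) b = (Submodule.span (ZMod p) T).map M.mkQ := by
      rw [hbspan, Submodule.map_span]
    set f : (Submodule.span (ZMod p) T) →ₗ[ZMod p] (A ⧸ M) :=
      M.mkQ.comp (Submodule.span (ZMod p) T).subtype with hf
    have h3 : LinearMap.ker f = M.comap (Submodule.span (ZMod p) T).subtype := by
      rw [hf, LinearMap.ker_comp, Submodule.ker_mkQ]
    have h4 : LinearMap.range f = (Submodule.span (ZMod p) T).map M.mkQ := by
      rw [hf, LinearMap.range_comp, Submodule.range_subtype]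
    rw [← h1, h2, ← h4, ← h3]
    exact (LinearMap.quotKerEquivRange f).finrank_eq.symm

/-! ### BE-18 (Basis.lean): choice of a basis of the graded pieces of the spans of `T i` -/
theorem exists_basis {p : ℕ} [Fact p.Prime] {A : Type} [Ring A] [Algebra (ZMod p) A]
    [Module.Finite (ZMod p) A] (F : ℕ → Submodule (ZMod p) A) (hanti : ∀ i, F (i + 1) ≤ F i)
    (T : ℕ → Set A) (N : ℕ) (hT : ∀ i, T i ⊆ F i) (hN : F N = ⊥) :
    ∃ (r : ℕ) (X : Fin r → A) (w : Fin r → ℕ),
      (∀ s, 1 ≤ w s ∧ w s < N ∧ X s ∈ T (w s)) ∧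
      (∀ i, 1 ≤ i → T i ⊆ (Submodule.span (ZMod p) {a | ∃ u, w u = i ∧ a = X u} ⊔ F (i + 1) :
        Submodule (ZMod p) A)) ∧
      (∀ i, 1 ≤ i → i < N → (univ.filter fun s => w s = i).card =
        Module.finrank (ZMod p) ((Submodule.span (ZMod p) (T i)) ⧸
          ((F (i + 1)).comap (Submodule.span (ZMod p) (T i)).subtype))) := by
  classical
  choose m Y hY1 hY2 hY3 using fun i => piece (p := p) (T i) (F (i + 1))
  let S := Σ i : Fin (N - 1), Fin (m (i.1 + 1))
  let e : S ≃ Fin (Fintype.card S) := Fintype.equivFin S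
  let Z : S → A := fun σ => Y (σ.1.1 + 1) σ.2
  refine ⟨Fintype.card S, fun s => Z (e.symm s),
    fun s => (e.symm s).1.1 + 1, ?_, ?_, ?_⟩
  · intro s
    refine ⟨Nat.succ_le_succ (Nat.zero_le _), ?_, hY1 _ _⟩
    have := (e.symm s).1.2
    change (e.symm s).1.1 + 1 < N
    omega
  · intro i hi
    rcases Nat.lt_or_ge i N with hiN | hiN
    · refine (hY2 i).trans ?_
      apply SetLike.coe_subset_coe.2
      apply sup_le_sup_right
      apply Submodule.span_mono
      obtain ⟨j, rfl⟩ : ∃ j, i = j + 1 := ⟨i - 1, by omega⟩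
      rintro _ ⟨t, rfl⟩
      refine ⟨e ⟨⟨j, by omega⟩, t⟩, ?_, ?_⟩
      · simp only [Equiv.symm_apply_apply]
      · exact (congrArg Z (e.symm_apply_apply ⟨⟨j, by omega⟩, t⟩)).symm
    · intro x hx
      have h1 : ∀ j, N ≤ j → F j = ⊥ := by
        intro j hj
        induction j, hj using Nat.le_induction with
        | base => exact hN
        | succ j _ ih => exact le_bot_iff.1 ((hanti j).trans ih.le)
      have h2 := hT i hx
      rw [h1 i hiN] at h2
      have h3 : x = 0 := h2
      rw [h3]
      exact Submodule.zero_mem _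
  · intro i hi hiN
    rw [← hY3 i]
    obtain ⟨j, rfl⟩ : ∃ j, i = j + 1 := ⟨i - 1, by omega⟩
    have hj : j < N - 1 := by omega
    have h1 : (univ.filter fun s : Fin (Fintype.card S) => (e.symm s).1.1 + 1 = j + 1) =
        (univ : Finset (Fin (m (j + 1)))).map
          ⟨fun t => e ⟨⟨j, hj⟩, t⟩, fun t t' h => by
            have h2 := e.injective h
            have h3 : (⟨⟨j, hj⟩, t⟩ : S) = ⟨⟨j, hj⟩, t'⟩ := h2
            exact eq_of_heq (Sigma.mk.inj h3).2⟩ := by
      ext s
      rw [mem_filter, mem_map]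
      constructor
      · rintro ⟨-, hs⟩
        obtain ⟨⟨⟨j', hj'⟩, t⟩, rfl⟩ := e.surjective s
        simp only [Equiv.symm_apply_apply] at hs
        have hjj : j' = j := by omega
        subst hjj
        exact ⟨t, mem_univ _, rfl⟩
      · rintro ⟨t, -, rfl⟩
        refine ⟨mem_univ _, ?_⟩
        simp only [Function.Embedding.coeFn_mk, Equiv.symm_apply_apply]
    rw [h1, card_map, card_univ, Fintype.card_fin]

end Pool.Agent.Helper87.BE
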